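import Mathlib
import Pool.Agent.Q195.WE.Final

/-! Weinstein conjecture: closed Reeb orbits are dense for contact forms with an arithmetic momentum
map on a covering, in particular for all left invariant contact forms on compact quotients of Lie
groups by arithmetic subgroups. -/

open scoped Topology ContDiff Manifold
open Pool.Agent.H826R2.WStmt Pool.Agent.Q195.WE

namespace Pool.Agent.Results.MP_e3ee0c_gt.ArithmeticQuotients

universe u v w x y

/-- Let `M` be a closed manifold with a contact form `α` and its Reeb field `R`.

(1) - (3): let `q : P → M` be a regular covering with deck group `Γ` and let `F : P → V` be a smooth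
map to a finite-dimensional vector space which is constant along the lifted Reeb flow.
(1) Suppose that the derivative of `F` vanishes on the Reeb direction only (at each point of `P`).
If, for a point `x` of `P`, each compact subset of `V` contains only finitely many of the values
`F (γ x)`, `γ ∈ Γ`, then the Reeb orbit of `q x` is periodic.
(2) Under the same assumption let `Λ` be a discrete subgroup of `V × ℝᵏ` preserved by the monodromy
(`PreservesLattice`: `Γ` acts on the values of `F` by linear maps which, completed by uniformly
bounded maps of `ℝᵏ`, map `Λ` into itself).  Then the Reeb orbit of `q x` is periodic for each point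
`x` whose momentum `F x` is a multiple of the first component of an element of `Λ`.
(3) If `V` has the same dimension as `M`, the value of `F` and the image of its derivative span `V` at
each point of `P`, and the monodromy is arithmetic (it preserves such a `Λ` which spans `V × ℝᵏ`),
then the points on periodic Reeb orbits are dense in `M`.

(4) Let `q : G → M` be the quotient map of a Lie group `G` by the left multiplications with the
elements of a subgroup `Γ` which is arithmetic in the coadjoint representation
(`ArithmeticCoadjoint`).  If the lifted contact form is left invariant then the points on periodic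
Reeb orbits are dense in `M`. -/
theorem result
    {E : Type u} [NormedAddCommGroup E] [NormedSpace ℝ E] [FiniteDimensional ℝ E]
    {M : Type v} [TopologicalSpace M] [ChartedSpace E M] [IsManifold 𝓘(ℝ, E) ∞ M]
    [T2Space M] [CompactSpace M]
    (α : M → Cov E) (hα : IsContact α) (R : M → E) (hR : IsReeb α R) :
    (∀ (P : Type w) [TopologicalSpace P] [ChartedSpace E P] [IsManifold 𝓘(ℝ, E) ∞ P]
      [T2Space P] [SigmaCompactSpace P] (Γ : Type x) [Group Γ] [MulAction Γ P] (q : P → M)
      (V : Type y) [NormedAddCommGroup V] [NormedSpace ℝ V] [FiniteDimensional ℝ V] (F : P → V),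
      IsQuotientMap E q Γ → IsInvariantMap q R F →
        (MaximalRank q R F → ∀ x : P,
          (∀ K : Set V, IsCompact K → {w | w ∈ K ∧ ∃ γ : Γ, w = F (γ • x)}.Finite) →
          q x ∈ ClosedPoints R) ∧
        (MaximalRank q R F → ∀ (k : ℕ) (Λ : Submodule ℤ (V × (Fin k → ℝ))),
          PreservesLattice Γ F Λ → ∀ (x : P) (t : ℝ), ∀ v ∈ Λ, F x = t • v.1 →
          q x ∈ ClosedPoints R) ∧
        (Module.finrank ℝ E = Module.finrank ℝ V → SpansV E F → ArithmeticMonodromy Γ F →
          Dense (ClosedPoints R))) ∧
    (∀ (G : Type w) [TopologicalSpace G] [ChartedSpace E G] [Group G] [LieGroup 𝓘(ℝ, E) ∞ G]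
      [T2Space G] [SigmaCompactSpace G] (Γ : Subgroup G) (q : G → M),
      IsQuotientMap E q Γ → IsLeftInvariant (pull (E := E) q α) → ArithmeticCoadjoint E Γ →
        Dense (ClosedPoints R)) :=
  ⟨fun _ _ _ _ _ _ _ _ _ _ _ _ _ _ _ hq hF =>
    ⟨fun hrank x hfin => closed_of_finite hα hR hq hF hrank x hfin,
      fun hrank _ _ hΛ x t v hv hx => closed_of_rational hα hR hq hF hrank hΛ x v hv t hx,
      fun hdim hs hΛ => dense_of_arithmetic hα hR hq hF hdim hs hΛ⟩,
    fun _ _ _ _ _ _ _ _ _ hq hinv hΛ => dense_of_lie hα hR hq hinv hΛ⟩

end Pool.Agent.Results.MP_e3ee0c_gt.ArithmeticQuotients
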