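import Mathlib
import Pool.Agent.Q263.HR.Asm
import Pool.Agent.Q166.HR.Corr
import Pool.Agent.Q150.HR.FC
import Pool.Agent.Q150.HR.TR
import Pool.Agent.Q177.HR.Ang
import Pool.Agent.Q177.HR.Lt
import Pool.Agent.Q26.HR.Lin
import Pool.Agent.Q154.HR.Cont
import Pool.Agent.Q154.HR.Der
import Pool.Agent.Q263.HR.Chain
import Pool.Agent.Q285.HR.Fl

/-! Weinstein conjecture in every dimension for contact forms with a strict contactomorphism which
has a nonempty compact hyperbolic set (inside the contact structure). -/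

set_option autoImplicit false

open scoped Topology ContDiff Manifold
open Set Filter Pool.Agent.H826R2.WStmt Pool.Agent.H721R2 Q263.HR

namespace Pool.Agent.Results.MP_e3ee0c_gt.HyperbolicSymmetry

universe u v

theorem result
    {E : Type u} [NormedAddCommGroup E] [NormedSpace ℝ E] [FiniteDimensional ℝ E]
    -- a closed manifold `M` with a contact form `α`, its Reeb field `R` and the Reeb flow `Φ`
    {M : Type v} [TopologicalSpace M] [ChartedSpace E M] [IsManifold 𝓘(ℝ, E) ∞ M]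
    [T2Space M] [CompactSpace M]
    (α : M → Cov E) (hα : IsContact α) (R : M → E) (hR : IsReeb α R)
    (Φ : ℝ → M → M) (hΦ0 : ∀ x, Φ 0 x = x)
    (hΦ : ∀ x, IsMIntegralCurve (I := 𝓘(ℝ, E)) (fun t => Φ t x)
      (fun x => (R x : TangentSpace 𝓘(ℝ, E) x)))
    -- a diffeomorphism `g` preserving `α`
    (g : Diffeomorph 𝓘(ℝ, E) 𝓘(ℝ, E) M M ∞) (hg : pull (E' := E) g α = α)
    -- a hyperbolic set `Λ` of `g` inside `ker α`
    (N : TangentBundle 𝓘(ℝ, E) M → ℝ) (hN : IsTangentNorm N) (Λ : Set M)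
    (Es Eu : ∀ x : M, Submodule ℝ (TangentSpace 𝓘(ℝ, E) x)) (C a : ℝ)
    (h : HypSet α g N Λ Es Eu C a) :
    -- (1) closed Reeb orbits accumulate at every chain recurrent point of `g` on `Λ`
    (∀ z, ChainRec g Λ z → ∀ U ∈ 𝓝 z, ∃ y ∈ U, ∃ T, IsPeriodicOrbit R (fun t => Φ t y) T) ∧
    -- (2) in particular they accumulate at every omega-limit point of every point of `Λ`
    (∀ x ∈ Λ, ∀ z ∈ omegaLimit atTop (fun (n : ℕ) (y : M) => g^[n] y) {x}, ∀ U ∈ 𝓝 z,
      ∃ y ∈ U, ∃ T, IsPeriodicOrbit R (fun t => Φ t y) T) ∧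
    -- (3) if `Λ` is not empty, then there is a closed Reeb orbit
    (Λ.Nonempty → ∃ y T, IsPeriodicOrbit R (fun t => Φ t y) T) := by
  obtain ⟨m, e, he, hemb, hinj⟩ := exists_embedding_euclidean_of_compact (I := 𝓘(ℝ, E)) (M := M)
  let _ : MetricSpace M := hemb.isEmbedding.comapMetricSpace e
  have hE : Emb E e := ⟨fun x y => dist_eq_norm (e x) (e y), he, hinj⟩
  have h1 : ∀ z, ChainRec g Λ z → ∀ U ∈ 𝓝 z, ∃ y ∈ U, ∃ T,
      IsPeriodicOrbit R (fun t => Φ t y) T := fun z hz U hU =>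
    main_metric (fun S => S.corr) (fun S hS => S.shad hS) (fun S => S.lin) fc fl Pool.Agent.Q154.HR.der tr ang
      Pool.Agent.Q154.HR.cont
      Q263.HR.lt chain hE hα hR hΦ0 hΦ g hg hN Es Eu h z hz U hU
  have hgc : Continuous g := g.continuous
  have hinv : ∀ x ∈ Λ, g x ∈ Λ := fun x hx => by
    rw [← h.inv]; exact mem_image_of_mem g hx
  have h2 : ∀ x ∈ Λ, ∀ z ∈ omegaLimit atTop (fun (n : ℕ) (y : M) => g^[n] y) {x}, ∀ U ∈ 𝓝 z,
      ∃ y ∈ U, ∃ T, IsPeriodicOrbit R (fun t => Φ t y) T := fun x hx z hz U hU =>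
    h1 z (omega M g hgc Λ h.closed hinv x hx z hz).2 U hU
  refine ⟨h1, h2, ?_⟩
  rintro ⟨x, hx⟩
  obtain ⟨z, hz⟩ := nonempty_omegaLimit (f := atTop) (ϕ := fun (n : ℕ) (y : M) => g^[n] y)
    (s := {x}) (singleton_nonempty x)
  obtain ⟨y, -, T, hT⟩ := h2 x hx z hz univ univ_mem
  exact ⟨y, T, hT⟩

end Pool.Agent.Results.MP_e3ee0c_gt.HyperbolicSymmetry
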