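import Mathlib
import Pool.Agent.Q71.WN.Fin

/-! Weinstein conjecture in every dimension for contact forms with a strict contactomorphism (or
finitely many) having a nondegenerate relative fixed point, for contact forms whose Reeb field has a
first integral with one transversally nondegenerate critical point, and for contact forms whose Reeb
flow has a closed invariant set consisting of countably many orbits. No group of symmetries is
assumed to be compact. -/

set_option autoImplicit false

open scoped Topology ContDiff Manifold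
open Pool.Agent.H826R2.WStmt

namespace Pool.Agent.Results.MP_e3ee0c_gt.NondegenerateSymmetry

universe u v

theorem result
    {E : Type u} [NormedAddCommGroup E] [NormedSpace ℝ E] [FiniteDimensional ℝ E]
    -- a closed manifold `M` with a contact form `α`, its Reeb field `R` and the Reeb flow `Φ`
    {M : Type v} [TopologicalSpace M] [ChartedSpace E M] [IsManifold 𝓘(ℝ, E) ∞ M]
    [T2Space M] [CompactSpace M]
    (α : M → Cov E) (hα : IsContact α) (R : M → E) (hR : IsReeb α R)
    (Φ : ℝ → M → M) (hΦ0 : ∀ x, Φ 0 x = x)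
    (hΦ : ∀ x, IsMIntegralCurve (I := 𝓘(ℝ, E)) (fun t => Φ t x)
      (fun x => (R x : TangentSpace 𝓘(ℝ, E) x))) :
    -- (1) Let `g 1, ..., g k` be smooth maps preserving `α` which map `p` into its own Reeb orbit,
    -- `g i p = Φ (T i) p`. If some linear combination of the operators `d(Φ (-T i) ∘ g i)_p - 1` is
    -- injective on `ker α_p`, then the Reeb orbit of `p` is periodic.
    (∀ (k : ℕ) (w T : Fin k → ℝ) (g : Fin k → M → M) (p : M),
      (∀ i, ContMDiff 𝓘(ℝ, E) 𝓘(ℝ, E) ∞ (g i)) → (∀ i, pull (E' := E) (g i) α = α) →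
      (∀ i, g i p = Φ (T i) p) →
      (∀ u, ev (α p) u = 0 →
        ∑ i, w i • (D (E' := E) (fun x => Φ (-T i) (g i x)) p u - u) = 0 → u = 0) →
      ∃ T', IsPeriodicOrbit R (fun t => Φ t p) T') ∧
    -- (2) Let `f` be a smooth first integral and `p` a critical point of `f` at which the Hessian
    -- of `f` is nondegenerate on `ker α_p`. Then the Reeb orbit of `p` is periodic.
    (∀ (f : M → ℝ) (p : M), ContMDiff 𝓘(ℝ, E) 𝓘(ℝ, ℝ) ∞ f →
      (∀ x, D (E := E) (E' := ℝ) f x (R x) = 0) → D (E := E) (E' := ℝ) f p = 0 →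
      (∀ u, ev (α p) u = 0 → (∀ v, ev (α p) v = 0 →
        fderiv ℝ (fderiv ℝ (f ∘ (extChartAt 𝓘(ℝ, E) p).symm)) (extChartAt 𝓘(ℝ, E) p p) u v = 0) →
        u = 0) →
      ∃ T', IsPeriodicOrbit R (fun t => Φ t p) T') ∧
    -- (3) A nonempty closed invariant set which is contained in the union of countably many orbits
    -- contains a periodic orbit.
    (∀ S : Set M, IsClosed S → S.Nonempty → (∀ x ∈ S, ∀ t, Φ t x ∈ S) →
      (∃ A : Set M, A.Countable ∧ ∀ x ∈ S, ∃ a ∈ A, ∃ t, Φ t a = x) →
      ∃ x ∈ S, ∃ T', IsPeriodicOrbit R (fun t => Φ t x) T') := by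
  let β : M → E →L[ℝ] ℝ := α
  have c : Pool.Agent.H826R2.Wein.CD (P := M) β R := ⟨hα.toWein, hR.toWein⟩
  have d : Q71.WN.Dat β R Φ := Q71.WN.reeb_dat c hΦ0 hΦ
  have key : ∀ x T', 0 < T' → Φ T' x = x → IsPeriodicOrbit R (fun t => Φ t x) T' := by
    intro x T' hT h
    refine ⟨hT, hΦ x, fun t => ?_⟩
    show Φ (t + T') x = Φ t x
    rw [d.add, h]
  refine ⟨?_, ?_, ?_⟩
  · intro k w T g p hg hs hp hnd
    obtain ⟨T', h1, h2⟩ := Q71.WN.relative c d Finset.univ w g T p (fun i _ => hg i)
      (fun i _ x u => congrArg (fun a : Cov E => ev a u) (congrFun (hs i) x)) (fun i _ => hp i) hnd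
    exact ⟨T', key p T' h1 h2⟩
  · intro f p hf hfR hcrit hnd
    obtain ⟨T', h1, h2⟩ := Q71.WN.critical c d f hf hfR p
      (fun v => DFunLike.congr_fun hcrit v) hnd
    exact ⟨T', key p T' h1 h2⟩
  · rintro S hS hne hinv ⟨A, hA, hcov⟩
    obtain ⟨x, hx, T', h1, h2⟩ := Q71.WN.periodic_of_countable Φ
      (fun x => d.flow.continuous.comp (continuous_id.prodMk continuous_const))
      (fun t => (d.toFD.smooth_t t).continuous) d.add d.zero hS hne hinv A hA hcov
    exact ⟨x, hx, T', key x T' h1 h2⟩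

end Pool.Agent.Results.MP_e3ee0c_gt.NondegenerateSymmetry
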