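import Mathlib
import Pool.Agent.Q169.SI.Main

/-! Weinstein conjecture in every dimension for contact forms whose Reeb field has first integrals
of rank at least `dim M - 2` at every point: there are uncountably many closed Reeb orbits. -/

open scoped Topology ContDiff Manifold
open Pool.Agent.H826R2.WStmt

namespace Pool.Agent.Results.MP_e3ee0c_gt.SuperintegrableReeb

universe u v w

theorem result
    {E : Type u} [NormedAddCommGroup E] [NormedSpace ℝ E] [FiniteDimensional ℝ E]
    -- a closed manifold `M`, of dimension at least two, with a contact form `α` and its Reeb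
    -- field `R`
    (hE : 1 < Module.finrank ℝ E)
    {M : Type v} [TopologicalSpace M] [ChartedSpace E M] [IsManifold 𝓘(ℝ, E) ∞ M]
    [T2Space M] [CompactSpace M] [Nonempty M]
    (α : M → Cov E) (hα : IsContact α) (R : M → E) (hR : IsReeb α R)
    -- a family of smooth first integrals of the Reeb field
    {ι : Type w} (f : ι → M → ℝ) (hf : ∀ i, ContMDiff 𝓘(ℝ, E) 𝓘(ℝ, ℝ) ∞ (f i))
    (hfR : ∀ i x, D (E' := ℝ) (f i) x (R x) = 0)
    -- whose differentials span a space of dimension at least `dim M - 2` at every point
    (hrank : ∀ x, Module.finrank ℝ E ≤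
      Module.finrank ℝ (Submodule.span ℝ (Set.range fun i => D (E := E) (E' := ℝ) (f i) x)) + 2) :
    -- the Reeb flow has uncountably many periodic orbits
    ¬ {O : Set M | ∃ (c : ℝ → M) (T : ℝ), IsPeriodicOrbit R c T ∧ O = Set.range c}.Countable :=
  uncountable_of_integrals hE α hα R hR f hf hfR hrank

end Pool.Agent.Results.MP_e3ee0c_gt.SuperintegrableReeb
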